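import Pool.Agent.Q279.MDp.Fam
import Pool.Agent.Q279.MDp.Four

set_option autoImplicit false

namespace Pool.Agent.Results.MP_db38ce_nt.AllLengthsFromFour

/-- The sub-tuple `(a i)_{i ∈ s}` of the tuple `a` is multiplicatively dependent: some integers `k i`, not all
zero for `i ∈ s`, satisfy `∏_{i ∈ s} (a i) ^ (k i) = 1` (in `ℚ`). -/
def MulDep {n : ℕ} (a : Fin n → ℤ) (s : Finset (Fin n)) : Prop :=
  ∃ k : Fin n → ℤ, (∃ i ∈ s, k i ≠ 0) ∧ ∏ i ∈ s, (a i : ℚ) ^ k i = 1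

/-- The `n`-tuple `a` is `k`-multiplicatively dependent: some `k`-subtuple is multiplicatively dependent and every
`(k - 1)`-subtuple is multiplicatively independent. -/
def KMulDep {n : ℕ} (k : ℕ) (a : Fin n → ℤ) : Prop :=
  (∃ s : Finset (Fin n), s.card = k ∧ MulDep a s) ∧ ∀ s : Finset (Fin n), s.card = k - 1 → ¬ MulDep a s

/-- For every `n ≥ 4` there are infinitely many `n`-tuples `a` of pairwise distinct integers larger than `1` such
that both `(a_1, …, a_n)` and `(a_1 + 1, …, a_n + 1)` are `n`-multiplicatively dependent. -/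
theorem result (n : ℕ) (hn : 4 ≤ n) :
    {a : Fin n → ℤ | Function.Injective a ∧ (∀ i, 1 < a i) ∧ KMulDep n a ∧ KMulDep n (fun i => a i + 1)}.Infinite := by
  have main : ∀ s : ℕ, ∃ a : Fin n → ℤ, (∀ i, 1 < a i) ∧ Q279.MDp.KDep n a ∧
      Q279.MDp.KDep n (fun i => a i + 1) ∧ (s : ℤ) < a ⟨0, by omega⟩ := by
    intro s
    obtain ⟨m, rfl⟩ : ∃ m, n = m + 3 := ⟨n - 3, by omega⟩
    rcases Nat.lt_or_ge m 2 with h | h
    · obtain rfl : m = 1 := by omega
      exact Q279.MDp.four s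
    · exact Q279.MDp.fam m s h
  have hle : ∀ N : ℤ, ∃ a ∈ {a : Fin n → ℤ | Function.Injective a ∧ (∀ i, 1 < a i) ∧ KMulDep n a ∧
      KMulDep n (fun i => a i + 1)}, N < a ⟨0, by omega⟩ := by
    intro N
    obtain ⟨a, h1, h2, h3, h4⟩ := main N.toNat
    exact ⟨a, ⟨Q279.MDp.inj_of (by omega) a (fun i => by have := h1 i; omega) h2, h1, h2, h3⟩,
      lt_of_le_of_lt (Int.self_le_toNat N) h4⟩
  refine Set.Infinite.of_image (fun a => a ⟨0, by omega⟩) (Set.infinite_of_not_bddAbove ?_)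
  rintro ⟨N, hN⟩
  obtain ⟨a, ha, h⟩ := hle N
  exact absurd (hN ⟨a, ha, rfl⟩) (not_le.2 h)

end Pool.Agent.Results.MP_db38ce_nt.AllLengthsFromFour
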